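import Mathlib
import Pool.Agent.Helper591.CyclicZero

/-!
# Largest subsets of a cyclic group whose `h`-fold sumset misses a given element

For all positive integers `h`, `n` and every residue `c`, the largest size of a set `A ⊆ ℤ_n` with
`c ∉ hA` is the maximum over the divisors `d` of `n` of
`(⌊(d - 1 - (g - (c mod g))) / h⌋ + 1) · n / d`, `g = gcd (d, h)`. The case `c = 0` is the
question (`v_h(n, h)`), the case `c = -1` gives `v_1(n, h)`, and all other values lie in between.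
The upper bound is the one of `Pool.Agent.Helper591.CyclicZero`.
-/

namespace Pool.Agent.Results.MP_7a9645_co.EveryResidue

/-- The `h`-fold sumset `hA` of all sums `a₁ + ⋯ + a_h` with `a_i ∈ A` (repetition allowed). -/
def hFold {n : ℕ} (h : ℕ) (A : Finset (ZMod n)) : Set (ZMod n) :=
  {s | ∃ a : Fin h → ZMod n, (∀ i, a i ∈ A) ∧ ∑ i, a i = s}

/-- The set of all sizes of subsets of `ℤ_n` whose `h`-fold sumset does not contain `c`. -/
def sizes (n h : ℕ) (c : ZMod n) : Set ℕ :=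
  {k | ∃ A : Finset (ZMod n), c ∉ hFold h A ∧ A.card = k}

/-- The largest size of a subset of `ℤ_n` whose `h`-fold sumset does not contain `c`; for `c = 0`
this is `τ(ℤ_n, h)`. -/
noncomputable def tau (n h : ℕ) (c : ZMod n) : ℕ := sSup (sizes n h c)

/-- The numbers `(⌊(d - 1 - gcd(d,g)) / h⌋ + 1) · n/d`, for `d` a positive divisor of `n`. -/
def divisorValues (g n h : ℕ) : Set ℤ :=
  {x | ∃ d : ℕ, 0 < d ∧ d ∣ n ∧
    x = (⌊((d : ℚ) - 1 - (Nat.gcd d g : ℚ)) / (h : ℚ)⌋ + 1) * ((n / d : ℕ) : ℤ)}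

/-- `v_g(n, h)`: the maximum of the numbers in `divisorValues g n h`. -/
noncomputable def v (g n h : ℕ) : ℤ := sSup (divisorValues g n h)

/-- The numbers `(⌊(d - 1 - (g - (c mod g))) / h⌋ + 1) · n/d` with `g = gcd (d, h)`, for `d` a
positive divisor of `n`. -/
def residueValues (n h : ℕ) (c : ℤ) : Set ℤ :=
  {x | ∃ d : ℕ, 0 < d ∧ d ∣ n ∧
    x = (⌊((d : ℚ) - 1 - ((Nat.gcd d h : ℚ) - ((c % (Nat.gcd d h : ℤ) : ℤ) : ℚ))) / (h : ℚ)⌋ + 1)
      * ((n / d : ℕ) : ℤ)}

open Pool.Agent.Helper591.Kneser Pool.Agent.Helper591.CyclicZero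
open scoped Pointwise

theorem value_eq (h d : ℕ) (c : ℤ) :
    (⌊((d : ℚ) - 1 - ((Nat.gcd d h : ℚ) - ((c % (Nat.gcd d h : ℤ) : ℤ) : ℚ))) / (h : ℚ)⌋ + 1)
      = val h d c := by
  have e : ((d : ℚ) - 1 - ((Nat.gcd d h : ℚ) - ((c % (Nat.gcd d h : ℤ) : ℤ) : ℚ))) / (h : ℚ)
      = (((d : ℤ) - 1 - ((Nat.gcd d h : ℤ) - c % (Nat.gcd d h : ℤ)) : ℤ) : ℚ) / ((h : ℕ) : ℚ) := by
    push_cast; rfl
  rw [e, Rat.floor_intCast_div_natCast]
  rfl

theorem exists_fun_of_mem_sm {G : Type*} [AddCommGroup G] [DecidableEq G] (A : Finset G) (k : ℕ) :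
    ∀ s ∈ sm k A, ∃ a : Fin k → G, (∀ i, a i ∈ A) ∧ ∑ i, a i = s := by
  induction k with
  | zero =>
    intro s hs
    have hs0 : s = 0 := by simpa [sm] using hs
    exact ⟨fun i => 0, fun i => i.elim0, by simp [hs0]⟩
  | succ k ih =>
    intro s hs
    have hs' : s ∈ sm k A + A := hs
    rw [Finset.mem_add] at hs'
    obtain ⟨u, hu, w, hw, rfl⟩ := hs'
    obtain ⟨a, ha, hsum⟩ := ih u hu
    refine ⟨Fin.snoc a w, ?_, ?_⟩
    · intro i
      refine Fin.lastCases ?_ (fun j => ?_) i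
      · rw [Fin.snoc_last]; exact hw
      · rw [Fin.snoc_castSucc]; exact ha j
    · rw [Fin.sum_univ_castSucc, Fin.snoc_last]
      simp only [Fin.snoc_castSucc]
      rw [hsum]

theorem val_nonneg {h d : ℕ} (hh : 0 < h) (hd : 0 < d) (c : ℤ) : 0 ≤ val h d c := by
  have hhZ : (1 : ℤ) ≤ h := by exact_mod_cast hh
  have hlow := val_lower (h := h) (d := d) hh c
  have hg : (Nat.gcd d h : ℤ) ≤ d := by exact_mod_cast Nat.gcd_le_left h hd
  have hgpos := gcd_pos_int (d := d) hh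
  have hm := Int.emod_nonneg c hgpos.ne'
  by_contra hneg
  push Not at hneg
  have hv : val h d c ≤ -1 := by omega
  nlinarith

/-- Upper bound. -/
theorem upper {n h : ℕ} (hh : 0 < h) (hn : 0 < n) (c : ℤ) {k : ℕ} (hk : k ∈ sizes n h (c : ZMod n)) :
    ∃ x ∈ residueValues n h c, (k : ℤ) ≤ x := by
  obtain ⟨A, hA, rfl⟩ := hk
  have : NeZero n := ⟨hn.ne'⟩
  rcases Finset.eq_empty_or_nonempty A with rfl | hne
  · refine ⟨_, ⟨1, one_pos, one_dvd n, rfl⟩, ?_⟩
    rw [value_eq, Finset.card_empty]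
    exact mul_nonneg (val_nonneg hh one_pos c) (Int.natCast_nonneg _)
  · have hc : (c : ZMod n) ∉ sm h A := by
      intro hmem
      obtain ⟨a, ha, hs⟩ := exists_fun_of_mem_sm A h _ hmem
      exact hA ⟨a, ha, hs⟩
    obtain ⟨d, hd0, hdn, hle⟩ := main_bound (h + n) h n le_rfl hh c A hne hc
    exact ⟨_, ⟨d, hd0, hdn, rfl⟩, by rw [value_eq]; exact hle⟩

/-- Construction: preimages of intervals modulo `d`. -/
theorem construct {n h d l : ℕ} (hh : 0 < h) (hn : 0 < n) (hd0 : 0 < d) (hdn : d ∣ n) (hl : 1 ≤ l)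
    (c : ℤ)
    (hle : (h : ℤ) * (l - 1) ≤ (d : ℤ) - 1 - ((Nat.gcd d h : ℤ) - c % (Nat.gcd d h : ℤ))) :
    ∃ A : Finset (ZMod n), (c : ZMod n) ∉ hFold h A ∧ A.card = l * (n / d) := by
  classical
  have : NeZero n := ⟨hn.ne'⟩
  have hgpos := gcd_pos_int (d := d) hh
  have hhZ : (1 : ℤ) ≤ h := by exact_mod_cast hh
  have hlZ : (1 : ℤ) ≤ l := by exact_mod_cast hl
  have hm0 := Int.emod_nonneg c hgpos.ne'
  have hmlt := Int.emod_lt_of_pos c hgpos
  have hld : (l : ℤ) ≤ d := by nlinarith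
  have hbez := Nat.gcd_eq_gcd_ab d h
  -- `c + (g - c mod g) = g q`
  obtain ⟨q, hq⟩ : ∃ q : ℤ, c + ((Nat.gcd d h : ℤ) - c % (Nat.gcd d h : ℤ)) = (Nat.gcd d h : ℤ) * q := by
    refine ⟨c / (Nat.gcd d h : ℤ) + 1, ?_⟩
    have := Int.emod_add_mul_ediv c (Nat.gcd d h : ℤ)
    rw [mul_add, mul_one]
    linarith
  set a : ℤ := Nat.gcdB d h * q with ha
  have hna : (d : ℤ) * ((n / d : ℕ) : ℤ) = n := by exact_mod_cast Nat.mul_div_cancel' hdn
  set F : ℕ × ℕ → ZMod n := fun z => ((a + z.1 + d * z.2 : ℤ) : ZMod n) with hF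
  refine ⟨(Finset.range l ×ˢ Finset.range (n / d)).image F, ?_, ?_⟩
  · rintro ⟨f, hf, hsum⟩
    have hf' : ∀ i, ∃ z : ℕ × ℕ, z.1 < l ∧ F z = f i := by
      intro i
      have := hf i
      rw [Finset.mem_image] at this
      obtain ⟨z, hz, hzf⟩ := this
      rw [Finset.mem_product, Finset.mem_range, Finset.mem_range] at hz
      exact ⟨z, hz.1, hzf⟩
    choose z hz1 hz2 using hf'
    have hs : (((∑ i, (a + (z i).1 + d * (z i).2 : ℤ)) - c : ℤ) : ZMod n) = 0 := by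
      rw [Int.cast_sub, Int.cast_sum, ← hsum, sub_eq_zero]
      exact Finset.sum_congr rfl (fun i _ => hz2 i)
    rw [ZMod.intCast_zmod_eq_zero_iff_dvd] at hs
    have hdvd : (d : ℤ) ∣ (∑ i, (a + (z i).1 + d * (z i).2 : ℤ)) - c := by
      have : (d : ℤ) ∣ n := by exact_mod_cast hdn
      exact this.trans hs
    have hexp : ∑ i, (a + (z i).1 + d * (z i).2 : ℤ)
        = (h : ℤ) * a + ∑ i, ((z i).1 : ℤ) + d * ∑ i, ((z i).2 : ℤ) := by
      rw [Finset.sum_add_distrib, Finset.sum_add_distrib, Finset.sum_const, Finset.card_univ,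
        Fintype.card_fin, nsmul_eq_mul, Finset.mul_sum]
    rw [hexp] at hdvd
    have h1 : (h : ℤ) * a = (Nat.gcd d h : ℤ) * q - d * (Nat.gcdA d h * q) := by
      rw [hbez, ha]; ring
    have h2 : (d : ℤ) ∣ ((Nat.gcd d h : ℤ) - c % (Nat.gcd d h : ℤ)) + ∑ i, ((z i).1 : ℤ) := by
      have h3 : ((Nat.gcd d h : ℤ) - c % (Nat.gcd d h : ℤ)) + ∑ i, ((z i).1 : ℤ)
          = (((h : ℤ) * a + ∑ i, ((z i).1 : ℤ) + d * ∑ i, ((z i).2 : ℤ)) - c)
            + d * (Nat.gcdA d h * q - ∑ i, ((z i).2 : ℤ)) := by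
        rw [h1]
        linear_combination hq
      rw [h3]
      exact dvd_add hdvd (dvd_mul_right _ _)
    have h4 : ∑ i, ((z i).1 : ℤ) ≤ (h : ℤ) * (l - 1) := by
      have : ∑ i : Fin h, ((z i).1 : ℤ) ≤ ∑ i : Fin h, ((l : ℤ) - 1) := by
        apply Finset.sum_le_sum
        intro i _
        have := hz1 i
        omega
      rw [Finset.sum_const, Finset.card_univ, Fintype.card_fin, nsmul_eq_mul] at this
      exact this
    have h5 : (0 : ℤ) ≤ ∑ i, ((z i).1 : ℤ) := Finset.sum_nonneg (fun i _ => Int.natCast_nonneg _)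
    have h6 := Int.le_of_dvd (by linarith) h2
    linarith
  · rw [Finset.card_image_of_injOn, Finset.card_product, Finset.card_range, Finset.card_range]
    intro x hx y hy hxy
    rw [Finset.mem_coe, Finset.mem_product, Finset.mem_range, Finset.mem_range] at hx hy
    have h1 : ((a + x.1 + d * x.2 : ℤ) : ZMod n) = ((a + y.1 + d * y.2 : ℤ) : ZMod n) := hxy
    rw [ZMod.intCast_eq_intCast_iff_dvd_sub] at h1
    have h2 : (a + y.1 + d * y.2 : ℤ) - (a + x.1 + d * x.2 : ℤ)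
        = ((y.1 : ℤ) - x.1) + d * ((y.2 : ℤ) - x.2) := by ring
    rw [h2, ← hna] at h1
    have hdZ : (0 : ℤ) < d := by exact_mod_cast hd0
    have h3 : (d : ℤ) ∣ (y.1 : ℤ) - x.1 := by
      have h4 := (dvd_mul_right (d : ℤ) _).trans h1
      exact (dvd_add_left (dvd_mul_right (d : ℤ) _)).mp h4
    have h5 : (y.1 : ℤ) - x.1 = 0 := by
      apply Int.eq_zero_of_abs_lt_dvd h3
      rw [abs_lt]
      have := hx.1; have := hy.1
      constructor <;> omega
    rw [h5, zero_add] at h1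
    have h6 : ((n / d : ℕ) : ℤ) ∣ (y.2 : ℤ) - x.2 := (mul_dvd_mul_iff_left hdZ.ne').mp h1
    have h7 : (y.2 : ℤ) - x.2 = 0 := by
      apply Int.eq_zero_of_abs_lt_dvd h6
      rw [abs_lt]
      have := hx.2; have := hy.2
      constructor <;> omega
    exact Prod.ext (by omega) (by omega)

/-- Lower bound. -/
theorem lower {n h : ℕ} (hh : 0 < h) (hn : 0 < n) (c : ℤ) {x : ℤ} (hx : x ∈ residueValues n h c) :
    ∃ k ∈ sizes n h (c : ZMod n), x = (k : ℤ) := by
  obtain ⟨d, hd0, hdn, rfl⟩ := hx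
  rw [value_eq]
  have hup := val_upper (h := h) (d := d) hh c
  have hv0 : 0 ≤ val h d c := val_nonneg hh hd0 c
  obtain ⟨l, hl⟩ := Int.eq_ofNat_of_zero_le hv0
  rcases Nat.eq_zero_or_pos l with h0 | hpos
  · refine ⟨0, ⟨∅, ?_, Finset.card_empty⟩, ?_⟩
    · rintro ⟨a, ha, _⟩
      exact absurd (ha ⟨0, hh⟩) (Finset.notMem_empty _)
    · rw [hl, h0]; simp
  · rw [hl] at hup
    obtain ⟨A, hA, hcard⟩ := construct hh hn hd0 hdn hpos c (by
      have e : (h : ℤ) * (l - 1) = h * l - h := by ring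
      rw [e]
      linarith)
    exact ⟨l * (n / d), ⟨A, hA, hcard⟩, by rw [hl]; push_cast; rfl⟩

/-- The maxima. -/
theorem greatest (h n : ℕ) (hh : 0 < h) (hn : 0 < n) (c : ℤ) :
    IsGreatest (sizes n h (c : ZMod n)) (tau n h (c : ZMod n)) ∧
      IsGreatest (residueValues n h c) (tau n h (c : ZMod n) : ℤ) := by
  classical
  have : NeZero n := ⟨hn.ne'⟩
  have hbdd : BddAbove (sizes n h (c : ZMod n)) := by
    refine ⟨n, ?_⟩
    rintro k ⟨A, _, rfl⟩
    have := Finset.card_le_univ A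
    rwa [ZMod.card] at this
  have hne : (sizes n h (c : ZMod n)).Nonempty := by
    refine ⟨0, ∅, ?_, Finset.card_empty⟩
    rintro ⟨a, ha, _⟩
    exact absurd (ha ⟨0, hh⟩) (Finset.notMem_empty _)
  have hT : IsGreatest (sizes n h (c : ZMod n)) (tau n h (c : ZMod n)) :=
    ⟨Nat.sSup_mem hne hbdd, fun k hk => le_csSup hbdd hk⟩
  refine ⟨hT, ?_, ?_⟩
  · obtain ⟨x, hx, hle⟩ := upper hh hn c hT.1
    obtain ⟨k, hk, hxk⟩ := lower hh hn c hx
    have h1 : k ≤ tau n h (c : ZMod n) := hT.2 hk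
    have h2 : (tau n h (c : ZMod n) : ℤ) = x := by
      apply le_antisymm hle
      rw [hxk]; exact_mod_cast h1
    rw [h2]; exact hx
  · intro x hx
    obtain ⟨k, hk, rfl⟩ := lower hh hn c hx
    exact_mod_cast hT.2 hk

theorem residue_zero (n h : ℕ) : residueValues n h 0 = divisorValues h n h := by
  unfold residueValues divisorValues
  ext x
  simp only [Int.zero_emod, Int.cast_zero, sub_zero]

theorem residue_neg_one (n h : ℕ) (hh : 0 < h) : residueValues n h (-1) = divisorValues 1 n h := by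
  have key : ∀ d : ℕ, (((-1 : ℤ) % (Nat.gcd d h : ℤ) : ℤ) : ℚ) = (Nat.gcd d h : ℚ) - 1 := by
    intro d
    have hg := gcd_pos_int (d := d) hh
    have h1 : (-1 : ℤ) % (Nat.gcd d h : ℤ) = (Nat.gcd d h : ℤ) - 1 := by
      rw [Int.emod_eq_iff hg.ne']
      refine ⟨by omega, ?_, ?_⟩
      · rw [Int.natAbs_natCast]; omega
      · exact ⟨1, by ring⟩
    rw [h1]
    push_cast
    ring
  unfold residueValues divisorValues
  ext x
  simp only [key, Nat.gcd_one_right, Nat.cast_one]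
  constructor
  · rintro ⟨d, h1, h2, h3⟩
    refine ⟨d, h1, h2, ?_⟩
    rw [h3]
    congr 4
    ring
  · rintro ⟨d, h1, h2, h3⟩
    refine ⟨d, h1, h2, ?_⟩
    rw [h3]
    congr 4
    ring

/-- Monotonicity of the values in `c mod g`. -/
theorem val_mono {h d : ℕ} (hh : 0 < h) {c c' : ℤ}
    (hc : c % (Nat.gcd d h : ℤ) ≤ c' % (Nat.gcd d h : ℤ)) : val h d c ≤ val h d c' := by
  unfold val
  have hhZ : (0 : ℤ) < h := by exact_mod_cast hh
  have := Int.ediv_le_ediv (a := (d : ℤ) - 1 - ((Nat.gcd d h : ℤ) - c % (Nat.gcd d h : ℤ)))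
    (b := (d : ℤ) - 1 - ((Nat.gcd d h : ℤ) - c' % (Nat.gcd d h : ℤ))) hhZ (by linarith)
  linarith

/-- **Main theorem.** For all positive integers `h`, `n` and every integer `c`: the largest size
`tau n h c` of a set `A ⊆ ℤ_n` with `c ∉ hA` is the greatest of the numbers
`(⌊(d - 1 - (g - (c mod g))) / h⌋ + 1) · n/d`, `g = gcd (d, h)`, `d ∣ n`; it lies between
`v_h(n, h)` and `v_1(n, h)`; the lower value is taken for `c = 0`, that is
`τ(ℤ_n, h) = v_h(n, h)`, and more generally whenever `gcd (n, h)` divides `c`, and the upper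
value is taken for `c = -1`. -/
theorem result (h n : ℕ) (hh : 0 < h) (hn : 0 < n) :
    (∀ c : ℤ, IsGreatest (sizes n h (c : ZMod n)) (tau n h (c : ZMod n)) ∧
      IsGreatest (residueValues n h c) (tau n h (c : ZMod n) : ℤ) ∧
      v h n h ≤ tau n h (c : ZMod n) ∧ (tau n h (c : ZMod n) : ℤ) ≤ v 1 n h ∧
      (((Nat.gcd n h : ℕ) : ℤ) ∣ c → (tau n h (c : ZMod n) : ℤ) = v h n h)) ∧
    (tau n h (0 : ZMod n) : ℤ) = v h n h ∧ (tau n h (-1 : ZMod n) : ℤ) = v 1 n h := by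
  have g0 := greatest h n hh hn 0
  have g1 := greatest h n hh hn (-1)
  rw [residue_zero] at g0
  rw [residue_neg_one n h hh] at g1
  have e0 : v h n h = (tau n h ((0 : ℤ) : ZMod n) : ℤ) := g0.2.csSup_eq
  have e1 : v 1 n h = (tau n h ((-1 : ℤ) : ZMod n) : ℤ) := g1.2.csSup_eq
  have hdvd : ∀ c : ℤ, ((Nat.gcd n h : ℕ) : ℤ) ∣ c → residueValues n h c = divisorValues h n h := by
    intro c hc
    rw [← residue_zero]
    unfold residueValues
    ext x
    have key : ∀ d : ℕ, d ∣ n → c % (Nat.gcd d h : ℤ) = 0 % (Nat.gcd d h : ℤ) := by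
      intro d hd
      rw [Int.zero_emod]
      apply Int.emod_eq_zero_of_dvd
      have h1 : Nat.gcd d h ∣ Nat.gcd n h := Nat.gcd_dvd_gcd_of_dvd_left h hd
      exact (Int.natCast_dvd_natCast.2 h1).trans hc
    constructor
    · rintro ⟨d, h1, h2, h3⟩
      exact ⟨d, h1, h2, by rw [h3, key d h2]⟩
    · rintro ⟨d, h1, h2, h3⟩
      exact ⟨d, h1, h2, by rw [h3, key d h2]⟩
  refine ⟨fun c => ?_, ?_, ?_⟩
  · have gc := greatest h n hh hn c
    refine ⟨gc.1, gc.2, ?_, ?_, ?_⟩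
    · -- lower value
      rw [e0]
      have hmem : (tau n h ((0 : ℤ) : ZMod n) : ℤ) ∈ residueValues n h 0 := by
        rw [residue_zero]; exact g0.2.1
      obtain ⟨d, hd0, hdn, hx⟩ := hmem
      rw [value_eq] at hx
      have hmem2 : val h d c * ((n / d : ℕ) : ℤ) ∈ residueValues n h c :=
        ⟨d, hd0, hdn, by rw [value_eq]⟩
      refine le_trans ?_ (gc.2.2 hmem2)
      rw [hx]
      apply mul_le_mul_of_nonneg_right _ (Int.natCast_nonneg _)
      apply val_mono hh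
      rw [Int.zero_emod]
      exact Int.emod_nonneg c (gcd_pos_int hh).ne'
    · rw [e1]
      obtain ⟨d, hd0, hdn, hx⟩ := gc.2.1
      rw [value_eq] at hx
      have hmem2 : val h d (-1) * ((n / d : ℕ) : ℤ) ∈ residueValues n h (-1) :=
        ⟨d, hd0, hdn, by rw [value_eq]⟩
      rw [residue_neg_one n h hh] at hmem2
      refine le_trans ?_ (g1.2.2 hmem2)
      rw [hx]
      apply mul_le_mul_of_nonneg_right _ (Int.natCast_nonneg _)
      apply val_mono hh
      have hg := gcd_pos_int (d := d) hh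
      have h1 : (-1 : ℤ) % (Nat.gcd d h : ℤ) = (Nat.gcd d h : ℤ) - 1 := by
        rw [Int.emod_eq_iff hg.ne']
        refine ⟨by omega, ?_, ?_⟩
        · rw [Int.natAbs_natCast]; omega
        · exact ⟨1, by ring⟩
      rw [h1]
      have := Int.emod_lt_of_pos c hg
      omega
    · intro hc
      have h1 := gc.2
      rw [hdvd c hc] at h1
      exact h1.csSup_eq.symm
  · rw [e0, Int.cast_zero]
  · rw [e1, Int.cast_neg, Int.cast_one]

end Pool.Agent.Results.MP_7a9645_co.EveryResidue
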